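import Pool.Agent.W606.PS.Stm

/-! PS-ONE2: one step for a region with two classes. -/

set_option autoImplicit false

open Set Relation

namespace Pool.Agent.W681.PS

open Pool.Agent.W606.PS

theorem clamp_lip (M a b : ℤ) (h : |a - b| ≤ 1) :
    |max 0 (min M a) - max 0 (min M b)| ≤ 1 := by
  rw [abs_le] at *
  omega

theorem main (h0 : S_TWO) (h : S_ADV) : S_ONE2 := by
  intro V T _ G tv M c N U part lev C hS hc hI Om hOm
  rintro ⟨Z₀, Z₁, x₀, x₁, hZ₀, hZ₁, hd, hun, ht01, htO0, htO1, hx₀, hx₁, hcl, hp0, hp1⟩
  obtain ⟨t, s, hs⟩ := h0 V T G tv hS Om Z₀ Z₁ hOm.2.1 hZ₀ hZ₁ hd hun ht01 htO0 htO1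
  set c₀ := tv t (s 2) with hc₀
  have hcO : c₀ ∈ Om := hs 2
  have ht0 : tv t (s 0) ∈ Z₀ := hs 0
  have ht1 : tv t (s 1) ∈ Z₁ := hs 1
  obtain ⟨-, F, hF1, hF2⟩ := hI.reg Om hOm
  have hNbU : ∀ z ∈ Nb G Om, z ∈ U := by
    rintro z ⟨hz1, u, hu, huz⟩
    by_contra hzU
    exact hz1 (hOm.2.2 u hu z hzU huz)
  have hYO : ({c₀} : Set V) ⊆ Om := singleton_subset_iff.2 hcO
  have hZ0O : ∀ z ∈ Z₀, z ∉ Om := by
    intro z hz
    have : z ∈ Omᶜ := hun ▸ Or.inl hz
    exact this
  have hZ1O : ∀ z ∈ Z₁, z ∉ Om := by
    intro z hz
    have : z ∈ Omᶜ := hun ▸ Or.inr hz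
    exact this
  have hres := h V T G tv M c N U part lev C hI Om hOm {c₀} hYO (singleton_nonempty _)
    {x₀, x₁} (le_trans (Finset.card_le_two) (by norm_num))
    (by
      intro d hd'
      rw [Finset.mem_insert, Finset.mem_singleton] at hd'
      rcases hd' with rfl | rfl
      · exact hx₀
      · exact hx₁)
    (by
      intro d hd1 d' hd2
      rw [Finset.mem_insert, Finset.mem_singleton] at hd1 hd2
      have hcl' : Cl C x₁ x₀ := by
        rcases hcl with h1 | h1 | h1
        · exact Or.inl h1.symm
        · exact Or.inr (Or.inr h1)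
        · exact Or.inr (Or.inl h1)
      rcases hd1 with rfl | rfl <;> rcases hd2 with rfl | rfl
      · exact Or.inl rfl
      · exact hcl
      · exact hcl'
      · exact Or.inl rfl)
    (by
      intro z hz
      rw [Finset.mem_insert, Finset.mem_singleton]
      have hz' : z ∈ Z₀ ∪ Z₁ := by
        rw [hun]
        exact hz.1
      rcases hz' with h1 | h1
      · exact Or.inl (hp0 z hz h1)
      · exact Or.inr (hp1 z hz h1))
    (fun v => max 0 (min (M : ℤ) (F v)))
    (by
      intro z hz
      have h1 := hI.lev_le z (hNbU z hz)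
      have h2 := hF1 z hz
      rw [h2]
      omega)
    (by
      intro u hu v huv
      exact clamp_lip M (F u) (F v) (hF2 u hu v huv))
    (by
      intro v
      omega)
    (by
      intro a
      refine le_trans ?_ hc
      refine le_trans (ncard_le_ncard (t := {c₀}) ?_ (finite_singleton _)) (ncard_singleton _).le
      intro v hv
      exact hv.1)
    (by
      intro Om' hOm'
      right; right
      have hsub : Om' ⊆ Om := fun v hv => (hOm'.1 hv).1
      have hcO' : c₀ ∉ Om' := fun hh => (hOm'.1 hh).2 rfl
      refine ⟨![Z₀, Z₁, Om \ Om'], ![x₀, x₁, N], ?_, ?_, ?_, ?_, ?_, ?_, ?_⟩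
      · intro i
        fin_cases i
        · exact hZ₀
        · exact hZ₁
        · exact con_diff_comp hOm.2.1 hYO (con_singleton G c₀) hOm'
      · intro i j hij
        have d02 : Disjoint Z₀ (Om \ Om') := by
          rw [Set.disjoint_left]
          intro z hz hz'
          exact hZ0O z hz hz'.1
        have d12 : Disjoint Z₁ (Om \ Om') := by
          rw [Set.disjoint_left]
          intro z hz hz'
          exact hZ1O z hz hz'.1
        fin_cases i <;> fin_cases j
        · exact absurd rfl hij
        · exact hd
        · exact d02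
        · exact hd.symm
        · exact absurd rfl hij
        · exact d12
        · exact d02.symm
        · exact d12.symm
        · exact absurd rfl hij
      · ext v
        rw [mem_iUnion]
        constructor
        · rintro ⟨i, hi⟩ hv
          fin_cases i
          · exact hZ0O v hi (hsub hv)
          · exact hZ1O v hi (hsub hv)
          · exact hi.2 hv
        · intro hv
          by_cases hvO : v ∈ Om
          · exact ⟨2, hvO, hv⟩
          · have : v ∈ Z₀ ∪ Z₁ := by
              rw [hun]
              exact hvO
            rcases this with h1 | h1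
            · exact ⟨0, h1⟩
            · exact ⟨1, h1⟩
      · refine ⟨t, s, ?_⟩
        intro i
        fin_cases i
        · exact ht0
        · exact ht1
        · exact ⟨hcO, hcO'⟩
      · intro i
        fin_cases i
        · exact Nat.lt_succ_of_lt hx₀
        · exact Nat.lt_succ_of_lt hx₁
        · exact Nat.lt_succ_self N
      · have k01 : Cl (fun p => if p = N then ({x₀, x₁} : Finset ℕ) else C p) x₀ x₁ := by
          unfold Cl
          simp only [if_neg hx₀.ne, if_neg hx₁.ne]
          exact hcl
        have k02 : Cl (fun p => if p = N then ({x₀, x₁} : Finset ℕ) else C p) x₀ N := by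
          right; left
          simp
        have k12 : Cl (fun p => if p = N then ({x₀, x₁} : Finset ℕ) else C p) x₁ N := by
          right; left
          simp
        have ksymm : ∀ a b, Cl (fun p => if p = N then ({x₀, x₁} : Finset ℕ) else C p) a b →
            Cl (fun p => if p = N then ({x₀, x₁} : Finset ℕ) else C p) b a := by
          rintro a b (h1 | h1 | h1)
          · exact Or.inl h1.symm
          · exact Or.inr (Or.inr h1)
          · exact Or.inr (Or.inl h1)
        intro i j
        fin_cases i <;> fin_cases j
        · exact Or.inl rfl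
        · exact k01
        · exact k02
        · exact ksymm _ _ k01
        · exact Or.inl rfl
        · exact k12
        · exact ksymm _ _ k02
        · exact ksymm _ _ k12
        · exact Or.inl rfl
      · intro i z hz hzi
        obtain ⟨hz1, u, hu, huz⟩ := hz
        fin_cases i
        · have hzO : z ∉ Om := hZ0O z hzi
          have hzc : z ∉ ({c₀} : Set V) := fun hh => hzO (hYO hh)
          show (open Classical in if z ∈ ({c₀} : Set V) then N else part z) = x₀
          rw [if_neg hzc]
          exact hp0 z ⟨hzO, u, hsub hu, huz⟩ hzi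
        · have hzO : z ∉ Om := hZ1O z hzi
          have hzc : z ∉ ({c₀} : Set V) := fun hh => hzO (hYO hh)
          show (open Classical in if z ∈ ({c₀} : Set V) then N else part z) = x₁
          rw [if_neg hzc]
          exact hp1 z ⟨hzO, u, hsub hu, huz⟩ hzi
        · have hzc : z ∈ ({c₀} : Set V) := by
            by_contra hh
            exact hz1 (hOm'.2.2 u hu z ⟨hzi.1, hh⟩ huz)
          show (open Classical in if z ∈ ({c₀} : Set V) then N else part z) = N
          rw [if_pos hzc])
  obtain ⟨lev', hlev'⟩ := hres
  refine ⟨_, _, lev', _, hlev', ?_⟩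
  rw [Set.ssubset_iff_of_subset subset_union_left]
  exact ⟨c₀, Or.inr rfl, fun hh => (hOm.1 hcO) hh⟩

end Pool.Agent.W681.PS
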